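import Pool.Agent.Helper55.CF.Goals

noncomputable section
namespace CF55
namespace H62

/-- a binary quadratic form over `ℂ` has a nontrivial zero -/
lemma bin_zero (A B C : ℂ) : ∃ s t : ℂ, (s ≠ 0 ∨ t ≠ 0) ∧ A * s ^ 2 + 2 * B * s * t + C * t ^ 2 = 0 := by
  by_cases hA : A = 0
  · exact ⟨1, 0, Or.inl one_ne_zero, by simp [hA]⟩
  · obtain ⟨z, hz⟩ := IsAlgClosed.exists_pow_nat_eq (B ^ 2 - A * C) (n := 2) (by norm_num)
    refine ⟨(-B + z) / A, 1, Or.inr one_ne_zero, ?_⟩
    field_simp
    linear_combination hz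

/-- a binary quadratic form over `ℂ` is a product of two linear forms -/
lemma bin_split (A B C : ℂ) : ∃ p q r s : ℂ, ∀ x y : ℂ,
    A * x ^ 2 + 2 * B * x * y + C * y ^ 2 = (p * x + q * y) * (r * x + s * y) := by
  by_cases hA : A = 0
  · exact ⟨0, 1, 2 * B, C, fun x y => by rw [hA]; ring⟩
  · obtain ⟨z, hz⟩ := IsAlgClosed.exists_pow_nat_eq (B ^ 2 - A * C) (n := 2) (by norm_num)
    refine ⟨A, B + z, 1, (B - z) / A, fun x y => ?_⟩
    field_simp
    linear_combination (y ^ 2) * hz

lemma mem_Fl (e : Fin 6 → V) {i k : Fin 6} (h : i ≤ k) : e i ∈ Fl e k :=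
  Submodule.subset_span ⟨i, h, rfl⟩

lemma Fl_mono (e : Fin 6 → V) {j k : Fin 6} (h : j ≤ k) : Fl e j ≤ Fl e k := by
  refine Submodule.span_mono (Set.image_mono ?_)
  intro i hi
  exact le_trans hi h

lemma Fl_finrank (e : Fin 6 → V) (hli : LinearIndependent ℂ e) (k : Fin 6) :
    Module.finrank ℂ (Fl e k) = k.val + 1 := by
  have h1 : Fl e k = Submodule.span ℂ (Set.range (fun i : {i : Fin 6 // i ≤ k} => e i)) := by
    unfold Fl
    congr 1
    ext x
    constructor
    · rintro ⟨i, hi, rfl⟩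
      exact ⟨⟨i, hi⟩, rfl⟩
    · rintro ⟨⟨i, hi⟩, rfl⟩
      exact ⟨i, hi, rfl⟩
  have h2 : Module.finrank ℂ (Submodule.span ℂ (Set.range (fun i : {i : Fin 6 // i ≤ k} => e i))) =
      Fintype.card {i : Fin 6 // i ≤ k} :=
    finrank_span_eq_card (hli.comp (Subtype.val : {i : Fin 6 // i ≤ k} → Fin 6)
      Subtype.val_injective)
  rw [h1, h2]
  have : Fintype.card {i : Fin 6 // i ≤ k} = (Finset.Iic k).card := by
    rw [Fintype.card_subtype]
    congr 1
    ext i; simp
  rw [this, Fin.card_Iic]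

/-- the basis of `V` given by `e` -/
def bas (e : Fin 6 → V) (hli : LinearIndependent ℂ e) : Module.Basis (Fin 6) ℂ V :=
  basisOfLinearIndependentOfCardEqFinrank hli (by simp)

lemma bas_apply (e : Fin 6 → V) (hli : LinearIndependent ℂ e) (i : Fin 6) : bas e hli i = e i := by
  simp [bas]

lemma expand (e : Fin 6 → V) (hli : LinearIndependent ℂ e) (v : V) :
    v = ∑ i, (bas e hli).repr v i • e i := by
  conv_lhs => rw [← (bas e hli).sum_repr v]
  simp [bas_apply]

lemma coord_e (e : Fin 6 → V) (hli : LinearIndependent ℂ e) (i j : Fin 6) :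
    (bas e hli).coord i (e j) = if j = i then 1 else 0 := by
  rw [← bas_apply e hli j, Module.Basis.coord_apply, Module.Basis.repr_self, Finsupp.single_apply]

lemma Fl4_le (e : Fin 6 → V) (hli : LinearIndependent ℂ e) {k : Fin 6} (hk : k ≤ 4) :
    Fl e k ≤ LinearMap.ker ((bas e hli).coord 5) := by
  unfold Fl
  rw [Submodule.span_le]
  rintro _ ⟨i, hi, rfl⟩
  rw [SetLike.mem_coe, LinearMap.mem_ker, coord_e, if_neg]
  rintro rfl
  have : (5 : Fin 6) ≤ 4 := le_trans hi hk
  exact absurd this (by decide)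

lemma le_Fl4 (e : Fin 6 → V) (hli : LinearIndependent ℂ e) {v : V}
    (hv : v ∈ LinearMap.ker ((bas e hli).coord 5)) : v ∈ Fl e 4 := by
  rw [expand e hli v]
  refine Submodule.sum_mem _ fun i _ => ?_
  by_cases hi : i ≤ 4
  · exact Submodule.smul_mem _ _ (mem_Fl e hi)
  · have h5 : i = 5 := by
      fin_cases i <;> simp_all
    subst h5
    have h0 : (bas e hli).repr v 5 = 0 := by
      rw [LinearMap.mem_ker, Module.Basis.coord_apply] at hv
      exact hv
    rw [h0, zero_smul]
    exact Submodule.zero_mem _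

lemma finrank_inf_ker (S : Submodule ℂ V) (L : V →ₗ[ℂ] ℂ) :
    Module.finrank ℂ S ≤ Module.finrank ℂ (S ⊓ LinearMap.ker L : Submodule ℂ V) + 1 := by
  have h1 := Submodule.finrank_sup_add_finrank_inf_eq S (LinearMap.ker L)
  have h2 : Module.finrank ℂ (S ⊔ LinearMap.ker L : Submodule ℂ V) ≤ 6 := by
    have := Submodule.finrank_le (S ⊔ LinearMap.ker L)
    simpa using this
  have h3 := LinearMap.finrank_range_add_finrank_ker L
  have h4 : Module.finrank ℂ (LinearMap.range L) ≤ 1 := by
    have := Submodule.finrank_le (LinearMap.range L)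
    simpa using this
  have h5 : Module.finrank ℂ V = 6 := by simp
  omega

theorem stmtCA : G_CA := by
  intro T e hS hli H
  set x5 : V →ₗ[ℂ] ℂ := (bas e hli).coord 5 with hx5
  -- the point P
  obtain ⟨P, hP0, hP2, hPe4, hPP5⟩ : ∃ P : V, P ≠ 0 ∧ P ∈ Fl e 2 ∧ T P (e 4) (e 4) = 0 ∧
      T P P (e 5) = 0 := by
    let φ : V →ₗ[ℂ] ℂ := ((LinearMap.applyₗ (e 4)).comp ((LinearMap.applyₗ (e 4)).comp T))
    have hφ : ∀ a, φ a = T a (e 4) (e 4) := fun a => rfl
    have hf := finrank_inf_ker (Fl e 2) φ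
    rw [Fl_finrank e hli 2] at hf
    have hf' : 1 < Module.finrank ℂ (Fl e 2 ⊓ LinearMap.ker φ : Submodule ℂ V) := by
      have h22 : ((2 : Fin 6) : ℕ) = 2 := rfl
      omega
    have : Nontrivial (Fl e 2 ⊓ LinearMap.ker φ : Submodule ℂ V) :=
      Module.nontrivial_of_finrank_pos (R := ℂ) (by omega)
    obtain ⟨u, hu⟩ := exists_ne (0 : (Fl e 2 ⊓ LinearMap.ker φ : Submodule ℂ V))
    obtain ⟨v, huv⟩ := exists_linearIndependent_pair_of_one_lt_finrank hf' hu
    obtain ⟨s, t, hst, hq⟩ := bin_zero (T u u (e 5)) (T u v (e 5)) (T v v (e 5))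
    refine ⟨s • (u : V) + t • (v : V), ?_, ?_, ?_, ?_⟩
    · intro h0
      rw [LinearIndependent.pair_iff] at huv
      have := huv s t (by
        apply Subtype.ext
        simpa using h0)
      rcases hst with h | h
      · exact h this.1
      · exact h this.2
    · exact Submodule.add_mem _ (Submodule.smul_mem _ _ u.2.1) (Submodule.smul_mem _ _ v.2.1)
    · have h1 : T u (e 4) (e 4) = 0 := u.2.2
      have h2 : T v (e 4) (e 4) = 0 := v.2.2
      simp [h1, h2]
    · have h3 : T v u (e 5) = T u v (e 5) := hS.s12 _ _ _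
      simp only [map_add, map_smul, LinearMap.add_apply, LinearMap.smul_apply, smul_eq_mul, h3]
      linear_combination hq
  have hP3 : P ∈ Fl e 3 := Fl_mono e (by decide) hP2
  have hP4 : P ∈ Fl e 4 := Fl_mono e (by decide) hP2
  -- vanishing on the basis
  have hij : ∀ i j : Fin 6, i ≤ 4 → j ≤ 4 → T P (e i) (e j) = 0 := by
    intro i j hi hj
    by_cases hi3 : i ≤ 3
    · exact H P hP2 _ (mem_Fl e hi3) _ (mem_Fl e hj)
    by_cases hj3 : j ≤ 3
    · rw [hS.s23]
      exact H P hP2 _ (mem_Fl e hj3) _ (mem_Fl e hi)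
    have hi4 : i = 4 := le_antisymm hi (by
      rw [not_le] at hi3
      exact Fin.add_one_le_of_lt hi3)
    have hj4 : j = 4 := le_antisymm hj (by
      rw [not_le] at hj3
      exact Fin.add_one_le_of_lt hj3)
    rw [hi4, hj4]; exact hPe4
  have hPPi : ∀ i : Fin 6, T P P (e i) = 0 := by
    intro i
    by_cases hi : i ≤ 4
    · exact H P hP2 P hP3 _ (mem_Fl e hi)
    · have h5 : i = 5 := by
        fin_cases i <;> simp_all
      rw [h5]; exact hPP5
  have hPP : ∀ v, T P P v = 0 := by
    intro v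
    rw [expand e hli v, map_sum]
    refine Finset.sum_eq_zero fun i _ => ?_
    rw [map_smul, hPPi, smul_zero]
  have hx5P : ∀ v ∈ Fl e 4, x5 v = 0 := fun v hv => Fl4_le e hli le_rfl hv
  let L : V →ₗ[ℂ] ℂ := (2 : ℂ) • ((LinearMap.applyₗ (e 5)).comp (T P)) - (T P (e 5) (e 5)) • x5
  have hL : ∀ v, L v = 2 * T P v (e 5) - T P (e 5) (e 5) * x5 v := fun v => by
    simp [L]
  have hTPvv : ∀ v, T P v v = x5 v * L v := by
    intro v
    rw [hL]
    have hx : x5 v = (bas e hli).repr v 5 := by rw [hx5, Module.Basis.coord_apply]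
    rw [hx]
    have hs : ∀ i j, T P (e i) (e j) = T P (e j) (e i) := fun i j => hS.s23 _ _ _
    set c := (bas e hli).repr v with hc
    have hv : v = ∑ i, c i • e i := expand e hli v
    have e1 : T P v (e 5) = ∑ i, c i * T P (e i) (e 5) := by
      conv_lhs => rw [hv]
      simp [map_sum, LinearMap.sum_apply]
    have e2 : T P v v = ∑ i, ∑ j, c i * (c j * T P (e i) (e j)) := by
      conv_lhs => rw [hv]
      simp only [map_sum, LinearMap.sum_apply, map_smul, LinearMap.smul_apply, smul_eq_mul,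
        Finset.mul_sum]
      rw [Finset.sum_comm]
      refine Finset.sum_congr rfl fun i _ => Finset.sum_congr rfl fun j _ => ?_
      ring
    rw [e1, e2]
    simp only [Fin.sum_univ_six]
    rw [hs 5 0, hs 5 1, hs 5 2, hs 5 3, hs 5 4]
    rw [hij 0 0 (by decide) (by decide), hij 0 1 (by decide) (by decide),
      hij 0 2 (by decide) (by decide), hij 0 3 (by decide) (by decide),
      hij 0 4 (by decide) (by decide), hij 1 0 (by decide) (by decide),
      hij 1 1 (by decide) (by decide), hij 1 2 (by decide) (by decide),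
      hij 1 3 (by decide) (by decide), hij 1 4 (by decide) (by decide),
      hij 2 0 (by decide) (by decide), hij 2 1 (by decide) (by decide),
      hij 2 2 (by decide) (by decide), hij 2 3 (by decide) (by decide),
      hij 2 4 (by decide) (by decide), hij 3 0 (by decide) (by decide),
      hij 3 1 (by decide) (by decide), hij 3 2 (by decide) (by decide),
      hij 3 3 (by decide) (by decide), hij 3 4 (by decide) (by decide),
      hij 4 0 (by decide) (by decide), hij 4 1 (by decide) (by decide),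
      hij 4 2 (by decide) (by decide), hij 4 3 (by decide) (by decide),
      hij 4 4 (by decide) (by decide)]
    ring
  by_cases hind : LinearIndependent ℂ ![x5, L]
  · left
    refine ⟨P, hP0, hPP, x5, L, hind, hTPvv, Fl e 2 ⊓ LinearMap.ker L, Fl e 3 ⊓ LinearMap.ker L,
      ⟨hP2, ?_⟩, ?_, ?_, ?_, ?_, ?_⟩
    · change L P = 0
      rw [hL, hPPi, hx5P P hP4]; ring
    · exact inf_le_inf_right _ (Fl_mono e (by decide))
    · exact inf_le_inf_right _ (Fl4_le e hli (by decide))
    · have := finrank_inf_ker (Fl e 2) L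
      rw [Fl_finrank e hli 2] at this
      have h22 : ((2 : Fin 6) : ℕ) = 2 := rfl
      omega
    · have := finrank_inf_ker (Fl e 3) L
      rw [Fl_finrank e hli 3] at this
      have h22 : ((3 : Fin 6) : ℕ) = 3 := rfl
      omega
    · intro a ha b hb v hv
      exact H a ha.1 b hb.1 v (le_Fl4 e hli hv.1)
  · right
    have hx50 : x5 ≠ 0 := by
      intro h
      have h1 : x5 (e 5) = 1 := by rw [hx5, coord_e, if_pos rfl]
      rw [h] at h1
      simp at h1
    rw [LinearIndependent.pair_iff' hx50] at hind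
    push Not at hind
    obtain ⟨c, hc⟩ := hind
    obtain ⟨r, hr⟩ := IsAlgClosed.exists_pow_nat_eq c (n := 2) (by norm_num)
    refine ⟨P, hP0, hPP, r • x5, fun v => ?_⟩
    rw [hTPvv, ← hc]
    simp only [LinearMap.smul_apply, smul_eq_mul]
    rw [← hr]; ring

/-- a symmetric bilinear form on `V` with radical of dimension `≥ 4` splits -/
lemma split (B : V →ₗ[ℂ] V →ₗ[ℂ] ℂ) (hB : ∀ x y, B x y = B y x) (R : Submodule ℂ V)
    (hR : 4 ≤ Module.finrank ℂ R) (hRB : ∀ x ∈ R, ∀ y, B x y = 0) :
    ∃ y₁ y₂ : V →ₗ[ℂ] ℂ, R ≤ LinearMap.ker y₁ ⊓ LinearMap.ker y₂ ∧ ∀ v, B v v = y₁ v * y₂ v := by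
  obtain ⟨C, hC⟩ := Submodule.exists_isCompl R
  have hfr : Module.finrank ℂ R + Module.finrank ℂ C = 6 := by
    have := Submodule.finrank_add_eq_of_isCompl hC
    simpa using this
  -- two vectors spanning `C`
  obtain ⟨a, b, α, β, hab⟩ : ∃ a b : V, ∃ α β : C →ₗ[ℂ] ℂ, ∀ c : C, (c : V) = α c • a + β c • b := by
    have bC : Module.Basis (Fin (Module.finrank ℂ C)) ℂ C := Module.finBasis ℂ C
    have hn : Module.finrank ℂ C ≤ 2 := by omega
    generalize hm : Module.finrank ℂ C = m at bC hn
    interval_cases m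
    · refine ⟨0, 0, 0, 0, fun c => ?_⟩
      have := bC.sum_repr c
      simp only [Finset.univ_eq_empty, Finset.sum_empty] at this
      rw [← this]; simp
    · refine ⟨bC 0, 0, bC.coord 0, 0, fun c => ?_⟩
      have := congrArg (fun z : C => (z : V)) (bC.sum_repr c)
      simp only [Fin.sum_univ_one] at this
      rw [← this]; simp
    · refine ⟨bC 0, bC 1, bC.coord 0, bC.coord 1, fun c => ?_⟩
      have := congrArg (fun z : C => (z : V)) (bC.sum_repr c)
      simp only [Fin.sum_univ_two] at this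
      rw [← this]; simp
  let π : V →ₗ[ℂ] C := Submodule.projectionOnto C R hC.symm
  obtain ⟨p, q, r, s, hpq⟩ := bin_split (B a a) (B a b) (B b b)
  refine ⟨p • (α.comp π) + q • (β.comp π), r • (α.comp π) + s • (β.comp π), ?_, ?_⟩
  · intro x hx
    have h0 : π x = 0 := (Submodule.projectionOnto_apply_eq_zero_iff hC.symm).2 hx
    constructor <;> simp [h0]
  · intro v
    have hd : v - (π v : V) ∈ R := by
      rw [← Submodule.projectionOnto_apply_eq_zero_iff hC.symm]
      rw [map_sub, Submodule.projectionOnto_apply_left]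
      simp [π]
    have h1 : B v v = B (π v) (π v) := by
      have e1 : v = (v - (π v : V)) + π v := by abel
      conv_lhs => rw [e1]
      simp only [map_add, LinearMap.add_apply]
      rw [hRB _ hd, hRB _ hd, hB (π v) (v - (π v : V)), hRB _ hd]
      ring
    rw [h1, hab (π v)]
    simp only [map_add, map_smul, LinearMap.add_apply, LinearMap.smul_apply, smul_eq_mul,
      LinearMap.comp_apply]
    rw [← hpq]
    rw [hB b a]
    ring

theorem stmtCT : G_CT := by
  intro T e hS hli H
  -- a point with degenerate residual form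
  let A : Matrix (Fin 3) (Fin 3) ℂ := fun i j => T (e 0) (e (Fin.natAdd 3 i)) (e (Fin.natAdd 3 j))
  let B : Matrix (Fin 3) (Fin 3) ℂ := fun i j => T (e 1) (e (Fin.natAdd 3 i)) (e (Fin.natAdd 3 j))
  obtain ⟨p0, p1, hp, hdet⟩ : ∃ p0 p1 : ℂ, (p0 ≠ 0 ∨ p1 ≠ 0) ∧ (p0 • A + p1 • B).det = 0 := by
    by_cases hA : A.det = 0
    · exact ⟨1, 0, Or.inl one_ne_zero, by simpa using hA⟩
    · obtain ⟨μ, hμ⟩ := IsAlgClosed.exists_root (A⁻¹ * B).charpoly (by
        rw [Matrix.charpoly_degree_eq_dim]; simp)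
      rw [Polynomial.IsRoot.def, Matrix.eval_charpoly] at hμ
      refine ⟨μ, -1, Or.inr (by simp), ?_⟩
      have h1 : μ • A + (-1 : ℂ) • B = A * (Matrix.scalar (Fin 3) μ - A⁻¹ * B) := by
        rw [mul_sub, ← mul_assoc, Matrix.mul_nonsing_inv A (isUnit_iff_ne_zero.2 hA), one_mul]
        have h2 : A * Matrix.scalar (Fin 3) μ = μ • A := by
          rw [Matrix.scalar_apply, ← Matrix.smul_one_eq_diagonal, Matrix.mul_smul, mul_one]
        rw [h2, neg_one_smul, sub_eq_add_neg]
      rw [h1, Matrix.det_mul, hμ, mul_zero]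
  set P : V := p0 • e 0 + p1 • e 1 with hP
  have hP1 : P ∈ Fl e 1 := Submodule.add_mem _ (Submodule.smul_mem _ _ (mem_Fl e (by decide)))
    (Submodule.smul_mem _ _ (mem_Fl e le_rfl))
  have hP2 : P ∈ Fl e 2 := Fl_mono e (by decide) hP1
  have hP0 : P ≠ 0 := by
    intro h0
    have h2 : LinearIndependent ℂ ![e 0, e 1] := by
      have := hli.comp ![(0 : Fin 6), 1] (by decide)
      convert this using 1
      ext i j
      fin_cases i <;> rfl
    rw [LinearIndependent.pair_iff] at h2
    have := h2 p0 p1 h0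
    rcases hp with h | h
    · exact h this.1
    · exact h this.2
  have hPP : ∀ v, T P P v = 0 := fun v => H P hP1 P hP2 v
  obtain ⟨n', hn'0, hn'⟩ := Matrix.exists_mulVec_eq_zero_iff.2 hdet
  obtain ⟨n, hn⟩ : ∃ n : V, n = ∑ i : Fin 3, n' i • e (Fin.natAdd 3 i) := ⟨_, rfl⟩
  have hTn : ∀ j, T P (e j) n = 0 := by
    intro j
    by_cases hj : j ≤ 2
    · exact H P hP1 _ (mem_Fl e hj) _
    · obtain ⟨i, rfl⟩ : ∃ i : Fin 3, j = Fin.natAdd 3 i := by
        revert hj; fin_cases j
        · intro h; exact absurd (by decide) h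
        · intro h; exact absurd (by decide) h
        · intro h; exact absurd (by decide) h
        · intro _; exact ⟨0, rfl⟩
        · intro _; exact ⟨1, rfl⟩
        · intro _; exact ⟨2, rfl⟩
      have := congrFun hn' i
      simp only [Matrix.mulVec, dotProduct, Matrix.add_apply, Matrix.smul_apply, smul_eq_mul,
        Pi.zero_apply, A, B] at this
      rw [← this, hn, hP]
      simp only [map_sum, map_add, map_smul, LinearMap.add_apply, LinearMap.smul_apply, smul_eq_mul]
      refine Finset.sum_congr rfl fun k _ => ?_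
      ring
  have hnv : ∀ v, T P n v = 0 := by
    intro v
    rw [hS.s23, expand e hli v, map_sum, LinearMap.sum_apply]
    refine Finset.sum_eq_zero fun i _ => ?_
    rw [map_smul, LinearMap.smul_apply, hTn, smul_zero]
  -- the radical
  let R : Submodule ℂ V := Fl e 2 ⊔ Submodule.span ℂ {n}
  have hnot : n ∉ Fl e 2 := by
    intro hmem
    -- coordinates of elements of `Fl e 2` vanish at 3,4,5
    have hc : ∀ i : Fin 3, ∀ v ∈ Fl e 2, (bas e hli).coord (Fin.natAdd 3 i) v = 0 := by
      intro i v hv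
      have : Fl e 2 ≤ LinearMap.ker ((bas e hli).coord (Fin.natAdd 3 i)) := by
        unfold Fl
        rw [Submodule.span_le]
        rintro _ ⟨j, hj, rfl⟩
        rw [SetLike.mem_coe, LinearMap.mem_ker, coord_e, if_neg]
        rintro rfl
        revert hj
        fin_cases i
        · intro hj; exact absurd hj (by decide)
        · intro hj; exact absurd hj (by decide)
        · intro hj; exact absurd hj (by decide)
      exact this hv
    apply hn'0
    funext i
    have h1 := hc i n hmem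
    have hinj : ∀ x i : Fin 3, (Fin.natAdd 3 x : Fin 6) = Fin.natAdd 3 i ↔ x = i := by decide
    rw [hn, map_sum] at h1
    simp only [map_smul, coord_e, smul_eq_mul, hinj, mul_ite, mul_one, mul_zero] at h1
    simpa using h1
  have hR4 : 4 ≤ Module.finrank ℂ R := by
    have h1 := Submodule.finrank_sup_add_finrank_inf_eq (Fl e 2) (Submodule.span ℂ {n})
    have h2 : (Fl e 2 ⊓ Submodule.span ℂ {n} : Submodule ℂ V) = ⊥ := by
      rw [Submodule.eq_bot_iff]
      rintro x ⟨hx1, hx2⟩
      obtain ⟨c, rfl⟩ := Submodule.mem_span_singleton.1 hx2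
      by_cases hc : c = 0
      · rw [hc, zero_smul]
      · exfalso
        apply hnot
        have := Submodule.smul_mem (Fl e 2) c⁻¹ hx1
        rwa [smul_smul, inv_mul_cancel₀ hc, one_smul] at this
    have hn0 : n ≠ 0 := by
      intro h
      exact hnot (h ▸ Submodule.zero_mem _)
    rw [h2, finrank_bot, finrank_span_singleton hn0, Fl_finrank e hli 2] at h1
    have h22 : ((2 : Fin 6) : ℕ) = 2 := rfl
    change 4 ≤ Module.finrank ℂ (Fl e 2 ⊔ Submodule.span ℂ {n} : Submodule ℂ V)
    omega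
  have hRB : ∀ x ∈ R, ∀ y, T P x y = 0 := by
    intro x hx y
    obtain ⟨u, hu, w, hw, rfl⟩ := Submodule.mem_sup.1 hx
    obtain ⟨c, rfl⟩ := Submodule.mem_span_singleton.1 hw
    rw [map_add, LinearMap.add_apply, map_smul, LinearMap.smul_apply, H P hP1 u hu y, hnv]
    simp
  obtain ⟨y₁, y₂, hRy, hyy⟩ := split (T P) (fun x y => hS.s23 P x y) R hR4 hRB
  by_cases hind : LinearIndependent ℂ ![y₁, y₂]
  · left
    refine ⟨P, hP0, hPP, y₁, y₂, hind, hyy, Fl e 1, Fl e 2, hP1, Fl_mono e (by decide),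
      le_trans le_sup_left hRy, ?_, ?_, ?_⟩
    · rw [Fl_finrank e hli 1]; decide
    · rw [Fl_finrank e hli 2]; decide
    · intro a ha b hb v _
      exact H a ha b hb v
  · right
    by_cases hy1 : y₁ = 0
    · refine ⟨P, hP0, hPP, 0, fun v => ?_⟩
      rw [hyy, hy1]; simp
    · rw [LinearIndependent.pair_iff' hy1] at hind
      push Not at hind
      obtain ⟨c, hc⟩ := hind
      obtain ⟨r, hr⟩ := IsAlgClosed.exists_pow_nat_eq c (n := 2) (by norm_num)
      refine ⟨P, hP0, hPP, r • y₁, fun v => ?_⟩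
      rw [hyy, ← hc]
      simp only [LinearMap.smul_apply, smul_eq_mul]
      rw [← hr]; ring

end H62
end CF55

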